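import Pool.Agent.TH366.HC.Rep

/-!
# Homology and L-function of the projective cyclic coverings of hyperplane arrangements
-/

set_option autoImplicit false

namespace Pool.Agent.TH366.SC

open Finset Polynomial Pool.Agent.W528.HA Pool.Agent.W528.HB Pool.Agent.TH366.HC

/-- Eigenvectors on a direct sum of stable subspaces. -/
theorem eig_zero {E V : Type} [Field E] [AddCommGroup V] [Module E V] {n : ℕ}
    (W : Fin n → Submodule E V) (hW : DirectSum.IsInternal W) (Φ : Module.End E V)
    (hstab : ∀ χ, ∀ v ∈ W χ, Φ v ∈ W χ) (c : E)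
    (h : ∀ χ, ∀ w : W χ, Φ (w : V) = c • (w : V) → w = 0) (v : V) (hv : Φ v = c • v) : v = 0 := by
  classical
  obtain ⟨x, hx⟩ := hW.2 v
  let g : (χ : Fin n) → W χ →+ W χ := fun χ =>
    ((Φ.restrict (hstab χ)) - c • (LinearMap.id : W χ →ₗ[E] W χ)).toAddMonoidHom
  let y : DirectSum (Fin n) (fun χ => W χ) := DirectSum.map g x
  have hcoe : ∀ t : DirectSum (Fin n) (fun χ => W χ),
      DirectSum.coeAddMonoidHom W (DirectSum.map g t)
        = Φ (DirectSum.coeAddMonoidHom W t) - c • DirectSum.coeAddMonoidHom W t := by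
    intro t
    induction t using DirectSum.induction_on with
    | zero => simp
    | of i a =>
      rw [DirectSum.map_of, DirectSum.coeAddMonoidHom_of, DirectSum.coeAddMonoidHom_of]
      rfl
    | add a b ha hb =>
      rw [map_add, map_add, map_add, ha, hb, map_add, smul_add]
      abel
  have hy : y = 0 := by
    apply hW.1
    rw [map_zero]
    show DirectSum.coeAddMonoidHom W (DirectSum.map g x) = 0
    rw [hcoe x, hx, hv, sub_self]
  have hx0 : x = 0 := by
    refine DFinsupp.ext fun χ => ?_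
    have h1 : (DirectSum.map g x) χ = g χ (x χ) := DirectSum.map_apply _ _ _
    have h2 : g χ (x χ) = 0 := by
      rw [← h1]
      show y χ = 0
      rw [hy]
      rfl
    refine h χ (x χ) ?_
    have h3 : Φ ((x χ : W χ) : V) - c • ((x χ : W χ) : V) = 0 := congrArg Subtype.val h2
    exact sub_eq_zero.1 h3
  rw [← hx, hx0, map_zero]

/-- No power of Frobenius has the eigenvalue `q ^ (d M)`. -/
theorem no_eig {N c d f : ℕ} (hN : 2 ≤ N) [Fact c.Prime]
    (κ : Type) [Field κ] [Fintype κ] [CharP κ c] (hf : Fintype.card κ = c ^ f) {z : κ}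
    (hz : IsPrimitiveRoot z N) {E : Type} [Field E] [CharZero E] [IsAlgClosed E] {μ : E}
    (hμ : IsPrimitiveRoot μ N) {ι : Type} [Fintype ι] (l : ι → Fin (2 * d + 1) → κ) (a : ι → ℕ)
    (hj : ∀ χ, 0 < χ → χ < N → ∃ j, j.Coprime N ∧
      ∑ i, ∑ s ∈ range f, (j * χ * a i * c ^ s) % N < f * N * (d + 1))
    {V : Type} [AddCommGroup V] [Module E V] [FiniteDimensional E V]
    (Φ : Module.End E V) (W : Fin (N - 1) → Submodule E V) (hW : DirectSum.IsInternal W)
    (hstab : ∀ χ, ∀ v ∈ W χ, Φ v ∈ W χ)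
    (hΦ : ∀ χ : Fin (N - 1), CoverTrace κ N d l a z μ (χ + 1) (Φ.restrict (hstab χ)))
    (M : ℕ) (hM : 0 < M) (v : V) (hv : (Φ ^ M) v = ((Fintype.card κ : E) ^ d) ^ M • v) :
    v = 0 := by
  have hst : ∀ (k : ℕ) (χ : Fin (N - 1)), ∀ v ∈ W χ, (Φ ^ k) v ∈ W χ := by
    intro k χ
    induction k with
    | zero => intro v hv; simpa using hv
    | succ k ih =>
      intro v hv
      rw [pow_succ, Module.End.mul_apply]
      exact ih _ (hstab χ v hv)
  refine eig_zero W hW (Φ ^ M) (hst M) _ ?_ v hv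
  intro χ w hw
  obtain ⟨j, hjc, hjs⟩ := hj (χ + 1) (by omega) (by have := χ.2; omega)
  refine no_tate hN κ hf d l a hjc hjs hz hμ _ (hΦ χ) M hM w ?_
  have h2 : ∀ (k : ℕ) (v : W χ), (((Φ.restrict (hstab χ)) ^ k) v : V) = (Φ ^ k) (v : V) := by
    intro k
    induction k with
    | zero => intro v; rfl
    | succ k ih =>
      intro v
      rw [pow_succ, Module.End.mul_apply, ih, pow_succ, Module.End.mul_apply]
      rfl
  ext
  rw [h2]
  exact hw

/-- The number of the solutions `(x, y)` with `x ≠ 0`. -/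
theorem cone_ne {L : Type} [Field L] [Fintype L] {N n : ℕ} (hN : 2 ≤ N) {ι : Type} [Fintype ι]
    [Nonempty ι] (l : ι → Fin n → L) (a : ι → ℕ) (ha : ∀ i, (a i).Coprime N) :
    conePoints L N n l a
      = Set.ncard {v : (Fin n → L) × L | v.1 ≠ 0 ∧ v.2 ^ N = ∏ i, (∑ k, l i k * v.1 k) ^ a i}
        + 1 := by
  classical
  unfold conePoints
  have hfin : Set.Finite
      {v : (Fin n → L) × L | v.1 ≠ 0 ∧ v.2 ^ N = ∏ i, (∑ k, l i k * v.1 k) ^ a i} :=
    Set.toFinite _
  have h0 : (0 : (Fin n → L) × L) ∉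
      {v : (Fin n → L) × L | v.1 ≠ 0 ∧ v.2 ^ N = ∏ i, (∑ k, l i k * v.1 k) ^ a i} := by
    intro h
    exact h.1 rfl
  rw [← Set.ncard_insert_of_notMem h0 hfin]
  congr 1
  ext ⟨x, y⟩
  simp only [Set.mem_ofPred_eq, Set.mem_insert_iff]
  obtain ⟨i⟩ := (inferInstance : Nonempty ι)
  have ha0 : a i ≠ 0 := by
    intro h0
    have h1 := ha i
    rw [h0, Nat.coprime_zero_left] at h1
    omega
  constructor
  · intro h
    by_cases hx : x = 0
    · left
      have h1 : ∏ i, (∑ k, l i k * x k) ^ a i = 0 := by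
        refine Finset.prod_eq_zero (mem_univ i) ?_
        rw [hx]
        simp [ha0]
      rw [h1] at h
      have hy : y = 0 := by
        by_contra hy
        exact pow_ne_zero _ hy h
      rw [hx, hy]
      rfl
    · exact Or.inr ⟨hx, h⟩
  · rintro (h | h)
    · have hx : x = 0 := congrArg Prod.fst h
      have hy : y = 0 := congrArg Prod.snd h
      rw [hx, hy, zero_pow (by omega : N ≠ 0)]
      symm
      refine Finset.prod_eq_zero (mem_univ i) ?_
      simp [ha0]
    · exact h.2

/-- Homology: equivariant functionals. -/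
theorem functional {E G V : Type} [Field E] [Group G] [AddCommGroup V] [Module E V]
    [FiniteDimensional E V] (ρ : Representation E G V) (φ : G) (c : E)
    (h : ∀ M : ℕ, 0 < M → ∀ v : V, ((ρ φ) ^ M) v = c ^ M • v → v = 0)
    (ε : G →* E) (hε : ε φ = c) (H : Subgroup G) (hH : H.FiniteIndex) (F : E × V →ₗ[E] E) :
    (∀ g ∈ H, ∀ x : E × V, F (ε g * x.1, ρ g x.2) = ε g * F x) ↔ ∃ t : E, ∀ x, F x = t * x.1 := by
  constructor
  · intro hF
    obtain ⟨M, hM0, -, hM⟩ := H.exists_pow_mem_of_index_ne_zero hH.index_ne_zero φ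
    have hinj : Function.Injective ((ρ φ) ^ M - c ^ M • (1 : Module.End E V)) := by
      rw [← LinearMap.ker_eq_bot, LinearMap.ker_eq_bot']
      intro v hv
      refine h M hM0 v ?_
      rw [LinearMap.sub_apply, LinearMap.smul_apply, Module.End.one_apply, sub_eq_zero] at hv
      exact hv
    have hsurj := LinearMap.injective_iff_surjective.1 hinj
    have hV : ∀ v : V, F (0, v) = 0 := by
      intro v
      obtain ⟨w, hw⟩ := hsurj v
      have h1 := hF _ hM (0, w)
      rw [map_pow, map_pow, hε, mul_zero] at h1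
      have h2 : ((0 : E), v) = (0, ((ρ φ) ^ M) w) - c ^ M • ((0 : E), w) := by
        rw [← hw]
        ext
        · simp
        · simp
      rw [h2, map_sub, h1, map_smul, smul_eq_mul, sub_self]
    refine ⟨F (1, 0), fun x => ?_⟩
    have h3 : x = x.1 • ((1 : E), (0 : V)) + (0, x.2) := by
      ext
      · simp
      · simp
    conv_lhs => rw [h3]
    rw [map_add, map_smul, hV, add_zero, smul_eq_mul, mul_comm]
  · rintro ⟨t, ht⟩ g - x
    rw [ht, ht]
    ring

/-- The pole of the L-function. -/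
theorem pole {E V : Type} [Field E] [AddCommGroup V] [Module E V] [FiniteDimensional E V]
    (A : Module.End E V) (c : E) (h : ∀ v : V, A v = c • v → v = 0) :
    (LinearMap.charpoly ((c • (LinearMap.id : E →ₗ[E] E)).prodMap A)).rootMultiplicity c = 1 := by
  have hA : ¬ A.charpoly.IsRoot c := by
    intro hr
    have h1 : A.HasEigenvalue c := (Module.End.hasEigenvalue_iff_isRoot_charpoly A c).2 hr
    obtain ⟨v, hv⟩ := h1.exists_hasEigenvector
    exact hv.2 (h v hv.apply_eq_smul)
  have hc : LinearMap.charpoly (c • (LinearMap.id : E →ₗ[E] E)) = X - C c := by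
    rw [← LinearMap.charpoly_toMatrix (c • (LinearMap.id : E →ₗ[E] E))
      (Module.Basis.singleton Unit E), map_smul, LinearMap.toMatrix_id]
    rw [Matrix.charpoly, Matrix.det_unique]
    simp [Matrix.charmatrix]
  rw [LinearMap.charpoly_prodMap, hc, rootMultiplicity_mul, rootMultiplicity_X_sub_C_self,
    rootMultiplicity_eq_zero hA]
  exact mul_ne_zero (X_sub_C_ne_zero c) (LinearMap.charpoly_monic A).ne_zero

/-- The criterion holds for few hyperplanes and `N` prime. -/
theorem few {N c d f : ℕ} (hN : N.Prime) (hc : c % N = 1) (hf : 0 < f) {ι : Type} [Fintype ι]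
    (hm : Fintype.card ι < N * (d + 1)) :
    ∀ χ, 0 < χ → χ < N → ∃ j, j.Coprime N ∧
      ∑ _i : ι, ∑ s ∈ range f, (j * χ * 1 * c ^ s) % N < f * N * (d + 1) := by
  intro χ h0 hχ
  have hcop : χ.Coprime N := by
    rw [Nat.coprime_comm, hN.coprime_iff_not_dvd]
    intro h
    exact absurd (Nat.le_of_dvd h0 h) (by omega)
  obtain ⟨j, hj⟩ := Nat.exists_mul_mod_eq_one_of_coprime hcop hN.one_lt
  have hj1 : j * χ % N = 1 := by rw [mul_comm]; exact hj.2
  refine ⟨j, ?_, ?_⟩
  · have h1 : (j * χ).Coprime N := by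
      have h2 := (Nat.dvd_mod_iff (Nat.gcd_dvd_right (j * χ) N)).2 (Nat.gcd_dvd_left (j * χ) N)
      rw [hj1] at h2
      exact Nat.dvd_one.1 h2
    exact Nat.Coprime.coprime_mul_right h1
  · have h1 : ∀ s, (j * χ * 1 * c ^ s) % N = 1 := by
      intro s
      rw [mul_one, Nat.mul_mod, hj1, Nat.pow_mod, hc, one_pow, Nat.one_mod_eq_one.2 hN.one_lt.ne',
        one_mul, Nat.one_mod_eq_one.2 hN.one_lt.ne']
    have h2 : ∑ _i : ι, ∑ s ∈ range f, (j * χ * 1 * c ^ s) % N = Fintype.card ι * f := by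
      rw [sum_const, card_univ, smul_eq_mul, sum_congr rfl fun s _ => h1 s, sum_const, card_range,
        smul_eq_mul, mul_one]
    rw [h2]
    calc Fintype.card ι * f < N * (d + 1) * f := Nat.mul_lt_mul_of_pos_right hm hf
      _ = f * N * (d + 1) := by ring

end Pool.Agent.TH366.SC
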